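import Mathlib

namespace Pool.Agent.Results.MP_bcdf42_nt.NotQuotient

open Polynomial

/-- The multiplicative semigroup `S(P)` generated by `P`, including `1`. -/
def S (P : Set ℕ) : Set ℕ := (Submonoid.closure P : Submonoid ℕ)

/-- The substitution `f(q) ↦ f(q^m)` on rational functions. -/
noncomputable def subst (m : ℕ) (f : RatFunc ℂ) : RatFunc ℂ :=
  algebraMap ℂ[X] (RatFunc ℂ) (f.num.comp (X ^ m)) /
    algebraMap ℂ[X] (RatFunc ℂ) (f.denom.comp (X ^ m))

/-- A sequence of rational functions (indexed by the positive integers) with support `S(P)`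
satisfying the functional equation. -/
def RationalSolution (P : Set ℕ) (f : ℕ → RatFunc ℂ) : Prop :=
  (∀ n, 1 ≤ n → (f n ≠ 0 ↔ n ∈ S P)) ∧
  ∀ m n, 1 ≤ m → 1 ≤ n → f (m * n) = f m * subst m (f n)

/-- The set `Γ(P)` of sequences of polynomials with support exactly `S(P)` satisfying the
functional equation. -/
def Gamma (P : Set ℕ) : Set (ℕ → ℂ[X]) :=
  {F | (∀ n, 1 ≤ n → (F n ≠ 0 ↔ n ∈ S P)) ∧
    ∀ m n, 1 ≤ m → 1 ≤ n → F (m * n) = F m * (F n).comp (X ^ m)}

/-- `f` lies in `K(Γ(P))`: it is the quotient of two elements of `Γ(P)`. -/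
def InK (P : Set ℕ) (f : ℕ → RatFunc ℂ) : Prop :=
  ∃ F ∈ Gamma P, ∃ G ∈ Gamma P, ∀ n, 1 ≤ n →
    ((n ∈ S P → f n = algebraMap ℂ[X] (RatFunc ℂ) (F n) / algebraMap ℂ[X] (RatFunc ℂ) (G n)) ∧
     (n ∉ S P → f n = 0))

lemma comp_ne {m : ℕ} (hm : 1 ≤ m) {b : ℂ[X]} (hb : b ≠ 0) : b.comp (X ^ m) ≠ 0 := by
  rw [← expand_eq_comp_X_pow]
  exact (expand_ne_zero (by omega)).mpr hb

lemma subst_div {m : ℕ} (hm : 1 ≤ m) {a b : ℂ[X]} (hb : b ≠ 0) :
    subst m (algebraMap ℂ[X] (RatFunc ℂ) a / algebraMap ℂ[X] (RatFunc ℂ) b) =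
      algebraMap ℂ[X] (RatFunc ℂ) (a.comp (X ^ m)) /
        algebraMap ℂ[X] (RatFunc ℂ) (b.comp (X ^ m)) := by
  set f := algebraMap ℂ[X] (RatFunc ℂ) a / algebraMap ℂ[X] (RatFunc ℂ) b with hf
  have h1 : f.num * b = a * f.denom := (RatFunc.num_mul_eq_mul_denom_iff hb).mpr hf
  have hd : f.denom ≠ 0 := f.denom_ne_zero
  unfold subst
  rw [div_eq_div_iff ((RatFunc.algebraMap_ne_zero) (comp_ne hm hd))
    ((RatFunc.algebraMap_ne_zero) (comp_ne hm hb)), ← map_mul, ← map_mul, ← mul_comp, h1, mul_comp]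

/-- The semigroup `S(P)` is saturated: if a product lies in `S(P)`, then so do the factors. -/
lemma mem_S_mul {P : Set ℕ} (hP : ∀ p ∈ P, p.Prime) {m n : ℕ} (hm : 1 ≤ m) (hn : 1 ≤ n) :
    m * n ∈ S P ↔ m ∈ S P ∧ n ∈ S P := by
  have key : ∀ k : ℕ, 1 ≤ k → (k ∈ S P ↔ ∀ p : ℕ, p.Prime → p ∣ k → p ∈ P) := by
    intro k hk
    constructor
    · intro h
      induction h using Submonoid.closure_induction with
      | mem x hx =>
        intro p hp hpx
        rwa [(Nat.prime_dvd_prime_iff_eq hp (hP x hx)).mp hpx]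
      | one => intro p hp h1; exact absurd (Nat.dvd_one.mp h1) hp.one_lt.ne'
      | mul x y _ _ hx hy =>
        intro p hp h1
        have hx1 : 1 ≤ x := Nat.pos_of_ne_zero (by rintro rfl; simp at hk)
        have hy1 : 1 ≤ y := Nat.pos_of_ne_zero (by rintro rfl; simp at hk)
        rcases hp.dvd_mul.mp h1 with h2 | h2
        · exact hx hx1 p hp h2
        · exact hy hy1 p hp h2
    · intro h
      rw [← Nat.prod_primeFactorsList (by omega : k ≠ 0)]
      apply Submonoid.list_prod_mem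
      intro p hp
      exact Submonoid.subset_closure
        (h p (Nat.prime_of_mem_primeFactorsList hp) (Nat.dvd_of_mem_primeFactorsList hp))
  rw [key m hm, key n hn, key (m * n) (Nat.mul_pos hm hn)]
  constructor
  · intro h
    exact ⟨fun p hp h1 => h p hp (h1.mul_right n), fun p hp h1 => h p hp (h1.mul_left m)⟩
  · rintro ⟨h1, h2⟩ p hp h3
    rcases hp.dvd_mul.mp h3 with h4 | h4
    · exact h1 p hp h4
    · exact h2 p hp h4

/-- The rational solution `(q^n - 2) / (q - 2)` on `S(P)`. -/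
noncomputable def sol (P : Set ℕ) (n : ℕ) : RatFunc ℂ := by
  classical
  exact if n ∈ S P then algebraMap ℂ[X] (RatFunc ℂ) (X ^ n - C 2) /
    algebraMap ℂ[X] (RatFunc ℂ) (X - C 2) else 0

lemma sol_isSolution {P : Set ℕ} (hP : ∀ p ∈ P, p.Prime) : RationalSolution P (sol P) := by
  classical
  have hne : ∀ n : ℕ, 1 ≤ n → (X ^ n - C 2 : ℂ[X]) ≠ 0 := fun n hn =>
    X_pow_sub_C_ne_zero (by omega) 2
  have hne1 : (X - C 2 : ℂ[X]) ≠ 0 := X_sub_C_ne_zero 2
  constructor
  · intro n hn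
    unfold sol
    by_cases h : n ∈ S P
    · rw [if_pos h]
      simp only [h, iff_true]
      exact div_ne_zero ((RatFunc.algebraMap_ne_zero) (hne n hn))
        ((RatFunc.algebraMap_ne_zero) hne1)
    · rw [if_neg h]
      simp [h]
  · intro m n hm hn
    unfold sol
    by_cases h1 : m ∈ S P
    · by_cases h2 : n ∈ S P
      · rw [if_pos h1, if_pos h2, if_pos ((mem_S_mul hP hm hn).mpr ⟨h1, h2⟩),
          subst_div hm hne1]
        have e1 : (X ^ n - C 2 : ℂ[X]).comp (X ^ m) = X ^ (m * n) - C 2 := by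
          simp [← pow_mul]
        have e2 : (X - C 2 : ℂ[X]).comp (X ^ m) = X ^ m - C 2 := by simp
        rw [e1, e2]
        have a1 := (RatFunc.algebraMap_ne_zero) (hne m hm)
        have a2 := (RatFunc.algebraMap_ne_zero) hne1
        field_simp
      · rw [if_neg h2, if_neg (fun h => h2 ((mem_S_mul hP hm hn).mp h).2)]
        have : subst m 0 = 0 := by simp [subst]
        rw [this, mul_zero]
    · rw [if_neg h1, if_neg (fun h => h1 ((mem_S_mul hP hm hn).mp h).1), zero_mul]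

/-- A polynomial solution whose support contains two primes `p ≠ r` has no zeros in `(1, ∞)` in
its `p`-th term. -/
lemma no_zero {F : ℕ → ℂ[X]} {p r : ℕ} (hp : p.Prime) (hr : r.Prime) (hpr : p ≠ r)
    (hFp : F p ≠ 0) (hFr : F r ≠ 0)
    (hFE : F p * (F r).comp (X ^ p) = F r * (F p).comp (X ^ r))
    (x : ℝ) (hx : 1 < x) : (F p).eval (x : ℂ) ≠ 0 := by
  intro h0
  have hp0 : (0 : ℝ) < p := by exact_mod_cast hp.pos
  have hr0 : (0 : ℝ) < r := by exact_mod_cast hr.pos
  have hev : ∀ z : ℂ, (F p).eval z * (F r).eval (z ^ p) = (F r).eval z * (F p).eval (z ^ r) := by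
    intro z
    have := congrArg (eval z) hFE
    simpa [eval_comp] using this
  -- finiteness of the real zeros
  have hfin : ∀ Q : ℂ[X], Q ≠ 0 → {y : ℝ | Q.eval (y : ℂ) = 0}.Finite := by
    intro Q hQ
    have h1 : {z : ℂ | Q.IsRoot z}.Finite := Polynomial.finite_setOfPred_isRoot hQ
    exact (h1.preimage (Complex.ofReal_injective.injOn)).subset (fun y hy => hy)
  -- Lemma 1
  have l1 : ∀ x : ℝ, 1 < x → (F p).eval (x : ℂ) = 0 →
      ∃ j : ℕ, (F r).eval ((x ^ (r ^ j) : ℝ) : ℂ) = 0 := by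
    intro x hx h0
    by_contra hcon
    push Not at hcon
    have hall : ∀ j : ℕ, (F p).eval ((x ^ (r ^ j) : ℝ) : ℂ) = 0 := by
      intro j
      induction j with
      | zero => simpa using h0
      | succ j ih =>
        have h2 := hev ((x ^ (r ^ j) : ℝ) : ℂ)
        rw [ih, zero_mul] at h2
        have h3 := (mul_eq_zero.mp h2.symm).resolve_left (hcon j)
        rw [pow_succ, pow_mul]
        push_cast at h3 ⊢
        exact h3
    have hinj : Function.Injective (fun j : ℕ => x ^ (r ^ j)) := by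
      intro a b hab
      have h4 := pow_right_injective₀ (by linarith) (by linarith [hx.ne']) hab
      exact Nat.pow_right_injective hr.two_le h4
    exact (Set.infinite_range_of_injective hinj)
      ((hfin (F p) hFp).subset (by rintro _ ⟨j, rfl⟩; exact hall j))
  -- Lemma 2
  have l2 : ∀ y : ℝ, 1 < y → (F r).eval (y : ℂ) = 0 →
      ∃ j : ℕ, (F r).eval ((y ^ ((r : ℝ) ^ j / p) : ℝ) : ℂ) = 0 := by
    intro y hy h0
    have hy0 : 0 ≤ y := by linarith
    have hz1 : 1 < y ^ (1 / (p : ℝ)) := Real.one_lt_rpow hy (by positivity)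
    have hzp : (y ^ (1 / (p : ℝ))) ^ p = y := by
      rw [← Real.rpow_natCast, ← Real.rpow_mul hy0]
      rw [one_div_mul_cancel hp0.ne', Real.rpow_one]
    have h2 := hev ((y ^ (1 / (p : ℝ)) : ℝ) : ℂ)
    have h3 : ((y ^ (1 / (p : ℝ)) : ℝ) : ℂ) ^ p = (y : ℂ) := by
      rw [← Complex.ofReal_pow, hzp]
    rw [h3, h0, mul_zero] at h2
    rcases mul_eq_zero.mp h2.symm with h4 | h4
    · refine ⟨0, ?_⟩
      rw [pow_zero]; exact h4
    · rw [← Complex.ofReal_pow] at h4
      obtain ⟨j, hj⟩ := l1 ((y ^ (1 / (p : ℝ))) ^ r)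
        (one_lt_pow₀ hz1 hr.ne_zero) h4
      refine ⟨j + 1, ?_⟩
      have e : ((y ^ (1 / (p : ℝ))) ^ r) ^ (r ^ j) = y ^ ((r : ℝ) ^ (j + 1) / p) := by
        rw [← pow_mul, ← Real.rpow_natCast, ← Real.rpow_mul hy0]
        congr 1
        push_cast
        field_simp
        ring
      rw [← e]; exact hj
  obtain ⟨j0, hj0⟩ := l1 x hx h0
  set y := x ^ (r ^ j0) with hy
  have hy1 : 1 < y := one_lt_pow₀ hx (pow_ne_zero _ hr.ne_zero)
  have hy0 : 0 ≤ y := by linarith
  have hchain : ∀ k : ℕ, ∃ a : ℕ, (F r).eval ((y ^ ((r : ℝ) ^ a / (p : ℝ) ^ k) : ℝ) : ℂ) = 0 := by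
    intro k
    induction k with
    | zero => exact ⟨0, by simpa using hj0⟩
    | succ k ih =>
      obtain ⟨a, ha⟩ := ih
      obtain ⟨j, hj⟩ := l2 _ (Real.one_lt_rpow hy1 (by positivity)) ha
      refine ⟨a + j, ?_⟩
      rw [← Real.rpow_mul hy0] at hj
      have e : (r : ℝ) ^ a / (p : ℝ) ^ k * ((r : ℝ) ^ j / p) =
          (r : ℝ) ^ (a + j) / (p : ℝ) ^ (k + 1) := by
        rw [pow_add, pow_succ]; field_simp
      rwa [e] at hj
  choose a ha using hchain
  have hinj : Function.Injective (fun k : ℕ => y ^ ((r : ℝ) ^ (a k) / (p : ℝ) ^ k)) := by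
    intro k l hkl
    have h1 : (r : ℝ) ^ (a k) / (p : ℝ) ^ k = (r : ℝ) ^ (a l) / (p : ℝ) ^ l := by
      have := congrArg Real.log hkl
      simp only [Real.log_rpow (lt_trans one_pos hy1)] at this
      exact mul_right_cancel₀ (Real.log_pos hy1).ne' this
    rw [div_eq_div_iff (by positivity) (by positivity)] at h1
    have h2 : r ^ a k * p ^ l = r ^ a l * p ^ k := by exact_mod_cast h1
    have hcop : ∀ i : ℕ, (r ^ i).factorization p = 0 := by
      intro i
      rw [hr.factorization_pow]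
      simp [hpr.symm]
    have h3 : (r ^ a k * p ^ l).factorization p = (r ^ a l * p ^ k).factorization p := by rw [h2]
    rw [Nat.factorization_mul (pow_ne_zero _ hr.ne_zero) (pow_ne_zero _ hp.ne_zero),
      Nat.factorization_mul (pow_ne_zero _ hr.ne_zero) (pow_ne_zero _ hp.ne_zero),
      Finsupp.add_apply, Finsupp.add_apply, hcop, hcop, hp.factorization_pow,
      hp.factorization_pow] at h3
    simp at h3
    exact h3.symm
  exact (Set.infinite_range_of_injective hinj)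
    ((hfin (F r) hFr).subset (by rintro _ ⟨k, rfl⟩; exact ha k))

/-- For every set `P` of primes with at least two elements there is a sequence of rational
functions with support `S(P)` which satisfies the functional equation but is not a quotient of
two elements of `Γ(P)`; in fact `(q^n - 2)/(q - 2)` on `S(P)` is such a sequence. -/
theorem result (P : Set ℕ) (hP : ∀ p ∈ P, p.Prime) (h2 : P.Nontrivial) :
    RationalSolution P (sol P) ∧ ¬ InK P (sol P) := by
  classical
  refine ⟨sol_isSolution hP, ?_⟩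
  rintro ⟨F, hF, G, hG, hFG⟩
  obtain ⟨p, hp, r, hr, hpr⟩ := h2
  have hpp := hP p hp
  have hrp := hP r hr
  have hpS : p ∈ S P := Submonoid.subset_closure hp
  have hrS : r ∈ S P := Submonoid.subset_closure hr
  have hFp := (hF.1 p hpp.one_lt.le).mpr hpS
  have hFr := (hF.1 r hrp.one_lt.le).mpr hrS
  have hGp := (hG.1 p hpp.one_lt.le).mpr hpS
  have hFE : F p * (F r).comp (X ^ p) = F r * (F p).comp (X ^ r) := by
    rw [← hF.2 p r hpp.one_lt.le hrp.one_lt.le, ← hF.2 r p hrp.one_lt.le hpp.one_lt.le, mul_comm]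
  have hq := (hFG p hpp.one_lt.le).1 hpS
  unfold sol at hq
  rw [if_pos hpS, div_eq_div_iff ((RatFunc.algebraMap_ne_zero) (X_sub_C_ne_zero 2))
    ((RatFunc.algebraMap_ne_zero) hGp), ← map_mul, ← map_mul] at hq
  have hpoly := RatFunc.algebraMap_injective ℂ hq
  have hp0 : (0 : ℝ) < p := by exact_mod_cast hpp.pos
  have hx1 : (1 : ℝ) < (2 : ℝ) ^ (1 / (p : ℝ)) := Real.one_lt_rpow (by norm_num) (by positivity)
  have hxp : ((2 : ℝ) ^ (1 / (p : ℝ))) ^ p = 2 := by
    rw [← Real.rpow_natCast, ← Real.rpow_mul (by norm_num), one_div_mul_cancel hp0.ne',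
      Real.rpow_one]
  have hx2 : (2 : ℝ) ^ (1 / (p : ℝ)) ≠ 2 := by
    intro h
    rw [h] at hxp
    have h3 : (2 : ℝ) ^ 1 < 2 ^ p := pow_lt_pow_right₀ (by norm_num) hpp.one_lt
    rw [hxp] at h3
    norm_num at h3
  have hev := congrArg (eval (((2 : ℝ) ^ (1 / (p : ℝ)) : ℝ) : ℂ)) hpoly
  simp only [eval_mul, eval_sub, eval_pow, eval_X, eval_C] at hev
  rw [← Complex.ofReal_pow, hxp] at hev
  have hz : (F p).eval (((2 : ℝ) ^ (1 / (p : ℝ)) : ℝ) : ℂ) = 0 := by
    have h3 : ((2 : ℝ) : ℂ) - 2 = 0 := by norm_num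
    rw [h3, zero_mul] at hev
    refine (mul_eq_zero.mp hev.symm).resolve_right ?_
    intro h4
    apply hx2
    have h5 : (((2 : ℝ) ^ (1 / (p : ℝ)) : ℝ) : ℂ) = ((2 : ℝ) : ℂ) := by
      rw [sub_eq_zero] at h4
      rw [h4]; norm_num
    exact Complex.ofReal_injective h5
  exact no_zero hpp hrp hpr hFp hFr hFE _ hx1 hz

end Pool.Agent.Results.MP_bcdf42_nt.NotQuotient
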